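import Mathlib
import Pool.Agent.CRM31.Prob

set_option autoImplicit false

open Filter Topology MeasureTheory ProbabilityTheory

namespace Pool.Agent.OGM31

/-- Chebyshev's inequality for signed counts of independent events. -/
theorem cheb_signed {Ω : Type*} [MeasurableSpace Ω] {μ : Measure Ω} [IsProbabilityMeasure μ]
    {A : ℕ → Set Ω} (hA : ∀ n, MeasurableSet (A n)) (hind : iIndepSet A μ) (f : ℕ → ℝ)
    (hf : ∀ n, |f n| ≤ 1) (x : ℕ) {D : ℝ} (hD : 0 < D) :
    μ.real {ω | D ≤ |∑ n ∈ Finset.range x, (A n).indicator (fun _ => f n) ω -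
      ∑ n ∈ Finset.range x, f n * μ.real (A n)|} ≤ x / D ^ 2 := by
  set E := ∑ n ∈ Finset.range x, f n * μ.real (A n) with hEdef
  set Y : ℕ → Ω → ℝ := fun n => (A n).indicator (fun _ => f n) with hY
  have hYm : ∀ n, MemLp (Y n) 2 μ := by
    intro n
    exact memLp_indicator_const 2 (hA n) (f n) (Or.inr (measure_ne_top μ _))
  have hYind : iIndepFun Y μ := by
    have h1 : iIndepFun (fun n => (A n).indicator (fun _ => (1 : ℝ))) μ := hind.iIndepFun_indicator
    have h2 := h1.comp (fun n (t : ℝ) => f n * t) (fun n => measurable_const.mul measurable_id)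
    convert h2 using 1
    funext n ω
    simp only [hY, Function.comp_apply]
    by_cases h : ω ∈ A n
    · rw [Set.indicator_of_mem h, Set.indicator_of_mem h, mul_one]
    · rw [Set.indicator_of_notMem h, Set.indicator_of_notMem h, mul_zero]
  have hvar : Var[∑ n ∈ Finset.range x, Y n; μ] ≤ x := by
    rw [IndepFun.variance_sum (fun n _ => hYm n) (fun i _ j _ hij => hYind.indepFun hij)]
    calc ∑ n ∈ Finset.range x, Var[Y n; μ] ≤ ∑ _n ∈ Finset.range x, (1 : ℝ) := by
          apply Finset.sum_le_sum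
          intro n _
          refine (variance_le_expectation_sq (hYm n).aestronglyMeasurable).trans ?_
          have h1 : ∀ ω, (Y n ^ 2) ω ≤ 1 := by
            intro ω
            simp only [Pi.pow_apply, hY]
            by_cases h : ω ∈ A n
            · rw [Set.indicator_of_mem h, ← sq_abs]
              have := hf n
              have h0 := abs_nonneg (f n)
              nlinarith
            · rw [Set.indicator_of_notMem h]; norm_num
          have h2 : Integrable (Y n ^ 2) μ := (hYm n).integrable_sq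
          calc ∫ ω, (Y n ^ 2) ω ∂μ ≤ ∫ _ω, (1 : ℝ) ∂μ :=
                integral_mono h2 (integrable_const _) h1
            _ = 1 := by simp
      _ = x := by simp
  have hmem : MemLp (∑ n ∈ Finset.range x, Y n) 2 μ := memLp_finsetSum' _ (fun n _ => hYm n)
  have hmean : ∫ ω, (∑ n ∈ Finset.range x, Y n) ω ∂μ = E := by
    simp only [Finset.sum_apply]
    rw [integral_finsetSum _ (fun n _ => (hYm n).integrable one_le_two)]
    rw [hEdef]
    apply Finset.sum_congr rfl
    intro n _
    simp only [hY]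
    rw [integral_indicator_const (f n) (hA n)]
    simp [mul_comm]
  have h2 := meas_ge_le_variance_div_sq hmem (c := D) hD
  rw [hmean] at h2
  have h3 : {ω | D ≤ |∑ n ∈ Finset.range x, (A n).indicator (fun _ => f n) ω - E|} =
      {ω | D ≤ |(∑ n ∈ Finset.range x, Y n) ω - E|} := by
    ext ω
    simp only [Set.mem_ofPred_eq, Finset.sum_apply, hY]
  rw [h3, Measure.real]
  calc _ ≤ (ENNReal.ofReal (Var[∑ n ∈ Finset.range x, Y n; μ] / D ^ 2)).toReal :=
        ENNReal.toReal_mono ENNReal.ofReal_ne_top h2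
    _ = Var[∑ n ∈ Finset.range x, Y n; μ] / D ^ 2 :=
        ENNReal.toReal_ofReal (div_nonneg (variance_nonneg _ _) (by positivity))
    _ ≤ x / D ^ 2 := div_le_div_of_nonneg_right hvar (by positivity)

/-- Almost surely the signed count differs from its mean by at most `2 x ^ (31 / 40)`. -/
theorem ae_dev {Ω : Type*} [MeasurableSpace Ω] {μ : Measure Ω} [IsProbabilityMeasure μ]
    {A : ℕ → Set Ω} (hA : ∀ n, MeasurableSet (A n)) (hind : iIndepSet A μ) (f : ℕ → ℝ)
    (hf : ∀ n, |f n| ≤ 1) :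
    ∀ᵐ ω ∂μ, ∀ᶠ x : ℕ in atTop, |∑ n ∈ Finset.range x, (A n).indicator (fun _ => f n) ω -
      ∑ n ∈ Finset.range x, f n * μ.real (A n)| ≤ 2 * (x : ℝ) ^ ((31 : ℝ) / 40) := by
  have hbc : ∀ᵐ ω ∂μ, ∀ᶠ k : ℕ in atTop,
      ω ∉ {ω | (k : ℝ) ^ ((31 : ℝ) / 20) ≤
        |∑ n ∈ Finset.range (k ^ 2), (A n).indicator (fun _ => f n) ω -
          ∑ n ∈ Finset.range (k ^ 2), f n * μ.real (A n)|} := by
    apply Pool.Agent.CRM31.bc μ _ (fun k : ℕ => (k : ℝ) ^ (-((11 : ℝ) / 10)))
    · exact Real.summable_nat_rpow.mpr (by norm_num)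
    · filter_upwards [eventually_ge_atTop 1] with k hk
      have hk0 : (0 : ℝ) < k := by exact_mod_cast hk
      refine (cheb_signed hA hind f hf (k ^ 2) (Real.rpow_pos_of_pos hk0 _)).trans (le_of_eq ?_)
      rw [div_eq_iff (by positivity)]
      push_cast
      rw [← Real.rpow_natCast, ← Real.rpow_natCast, ← Real.rpow_mul hk0.le, ← Real.rpow_add hk0]
      congr 1
      push_cast
      norm_num
  filter_upwards [hbc] with ω hω
  obtain ⟨M, hM⟩ := eventually_atTop.mp hω
  have hbig : ∀ᶠ x : ℕ in atTop, (6 : ℝ) ≤ (x : ℝ) ^ ((11 : ℝ) / 40) :=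
    ((tendsto_rpow_atTop (by norm_num)).comp tendsto_natCast_atTop_atTop).eventually_ge_atTop 6
  filter_upwards [eventually_ge_atTop (M ^ 2), eventually_ge_atTop 1, hbig] with x hx hx1 hx6
  set k := Nat.sqrt x with hk
  have hkM : M ≤ k := by
    rw [hk, Nat.le_sqrt]
    nlinarith
  have hk1 : k ^ 2 ≤ x := Nat.sqrt_le' x
  have hk2 : x ≤ k ^ 2 + 2 * k := by
    have := Nat.sqrt_le_add x
    nlinarith
  have h1 := hM k hkM
  simp only [not_le] at h1
  have hx0 : (0 : ℝ) < x := by exact_mod_cast hx1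
  have hkx : (k : ℝ) ≤ (x : ℝ) ^ ((1 : ℝ) / 2) := by
    rw [← Real.sqrt_eq_rpow]
    refine Real.le_sqrt_of_sq_le ?_
    exact_mod_cast hk1
  have h2 : (k : ℝ) ^ ((31 : ℝ) / 20) ≤ (x : ℝ) ^ ((31 : ℝ) / 40) := by
    calc (k : ℝ) ^ ((31 : ℝ) / 20) ≤ ((x : ℝ) ^ ((1 : ℝ) / 2)) ^ ((31 : ℝ) / 20) :=
          Real.rpow_le_rpow (by positivity) hkx (by norm_num)
      _ = _ := by
          rw [← Real.rpow_mul hx0.le]
          congr 1
          norm_num
  have h3 : |∑ n ∈ Finset.Ico (k ^ 2) x, ((A n).indicator (fun _ => f n) ω - f n * μ.real (A n))| ≤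
      2 * (2 * k) := by
    refine (Finset.abs_sum_le_sum_abs _ _).trans ?_
    calc ∑ n ∈ Finset.Ico (k ^ 2) x, |(A n).indicator (fun _ => f n) ω - f n * μ.real (A n)|
        ≤ ∑ _n ∈ Finset.Ico (k ^ 2) x, (2 : ℝ) := by
          refine Finset.sum_le_sum (fun n _ => ?_)
          have e1 : |(A n).indicator (fun _ => f n) ω| ≤ 1 := by
            by_cases h : ω ∈ A n
            · rw [Set.indicator_of_mem h]; exact hf n
            · rw [Set.indicator_of_notMem h]; norm_num
          have e2 : |f n * μ.real (A n)| ≤ 1 := by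
            rw [abs_mul, abs_of_nonneg (measureReal_nonneg (μ := μ) (s := A n))]
            have h0 := abs_nonneg (f n)
            have h4 : μ.real (A n) ≤ 1 := measureReal_le_one
            have h5 : 0 ≤ μ.real (A n) := measureReal_nonneg
            have := hf n
            nlinarith
          refine (abs_sub _ _).trans ?_
          linarith
      _ = 2 * ((x - k ^ 2 : ℕ) : ℝ) := by
          rw [Finset.sum_const, Nat.card_Ico, nsmul_eq_mul]
          ring
      _ ≤ 2 * (2 * k) := by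
          have : x - k ^ 2 ≤ 2 * k := by omega
          have h6 : ((x - k ^ 2 : ℕ) : ℝ) ≤ ((2 * k : ℕ) : ℝ) := by exact_mod_cast this
          push_cast at h6
          linarith
  have h4 : ∑ n ∈ Finset.range x, (A n).indicator (fun _ => f n) ω -
      ∑ n ∈ Finset.range x, f n * μ.real (A n) =
      (∑ n ∈ Finset.range (k ^ 2), (A n).indicator (fun _ => f n) ω -
        ∑ n ∈ Finset.range (k ^ 2), f n * μ.real (A n)) +
      ∑ n ∈ Finset.Ico (k ^ 2) x, ((A n).indicator (fun _ => f n) ω - f n * μ.real (A n)) := by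
    rw [Finset.sum_sub_distrib, Finset.sum_Ico_eq_sub _ hk1, Finset.sum_Ico_eq_sub _ hk1]
    ring
  rw [h4]
  have h5 : 4 * (k : ℝ) ≤ (x : ℝ) ^ ((31 : ℝ) / 40) := by
    have e1 : (x : ℝ) ^ ((31 : ℝ) / 40) = (x : ℝ) ^ ((1 : ℝ) / 2) * (x : ℝ) ^ ((11 : ℝ) / 40) := by
      rw [← Real.rpow_add hx0]
      congr 1
      norm_num
    rw [e1]
    have e2 : (0 : ℝ) ≤ (x : ℝ) ^ ((1 : ℝ) / 2) := by positivity
    nlinarith
  calc _ ≤ _ := abs_add_le _ _
    _ ≤ (x : ℝ) ^ ((31 : ℝ) / 40) + (x : ℝ) ^ ((31 : ℝ) / 40) := by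
        refine add_le_add (h1.le.trans h2) (h3.trans ?_)
        linarith
    _ = _ := by ring

end Pool.Agent.OGM31
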