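import Mathlib
import Pool.Agent.Helper24.Odious.Asym

set_option autoImplicit false

open Filter Topology

namespace Pool.Agent.OGM31

open Pool.Agent.Odious24

/-- No prime factor up to `z`. -/
def Sift (z n : ℕ) : Prop := ∀ p : ℕ, p.Prime → p ≤ z → ¬ p ∣ n

/-- The weight of the problem, as a real number. -/
noncomputable def e (n : ℕ) : ℝ := (Nceb06bb4.signWeight n : ℝ)

open Classical in
/-- Sifted weight. -/
noncomputable def sw (z n : ℕ) : ℝ := if Sift z n then e n else 0

lemma abs_e (n : ℕ) : |e n| = 1 := by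
  unfold e Nceb06bb4.signWeight
  split_ifs <;> simp

lemma abs_sw_le (z n : ℕ) : |sw z n| ≤ 1 := by
  unfold sw
  split_ifs
  · rw [abs_e]
  · simp

lemma FF_sum (x z : ℕ) : ((FF x z : ℤ) : ℝ) = ∑ n ∈ Finset.range x, sw z n := by
  classical
  unfold FF sw e Sift
  rw [Finset.sum_filter]
  push_cast
  refine Finset.sum_congr rfl (fun n _ => ?_)
  by_cases h : ∀ p : ℕ, p.Prime → p ≤ z → ¬ p ∣ n
  · rw [if_pos h]
  · rw [if_neg h]

lemma FF_sub {a b : ℕ} (hab : a ≤ b) (z : ℕ) :
    ∑ n ∈ Finset.Ico a b, sw z n = ((FF b z : ℤ) : ℝ) - ((FF a z : ℤ) : ℝ) := by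
  rw [FF_sum, FF_sum, Finset.sum_Ico_eq_sub _ hab]

/-- The difference between the weight of the model and the weight of the numbers prime to 6. -/
noncomputable def dd (z : ℕ → ℕ) (n : ℕ) : ℝ := sw (z n) n / WW (z n) - 3 * sw 3 n

lemma WW_ge (j : ℕ) (hj : 1 ≤ j) : 1 / (j : ℝ) ≤ WW j := by
  induction j, hj using Nat.le_induction with
  | base =>
    unfold WW
    have : (Finset.range (1 + 1)).filter Nat.Prime = ∅ := by decide
    rw [this]; simp
  | succ j hj ih =>
    have hj0 : (0 : ℝ) < j := by exact_mod_cast hj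
    have hW : 0 < WW j := lt_of_lt_of_le (by positivity) ih
    have h1 : WW j * (1 - 1 / ((j + 1 : ℕ) : ℝ)) ≤ WW (j + 1) := by
      unfold WW
      rw [Finset.range_add_one (n := j + 1), Finset.filter_insert]
      split_ifs with h
      · rw [Finset.prod_insert (by simp), mul_comm]
      · have h2 : 0 ≤ ∏ p ∈ (Finset.range (j + 1)).filter Nat.Prime, (1 - 1 / (p : ℝ)) := hW.le
        have h3 : (0 : ℝ) ≤ 1 / ((j + 1 : ℕ) : ℝ) := by positivity
        nlinarith
    refine le_trans ?_ h1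
    have h4 : (1 : ℝ) / ((j + 1 : ℕ) : ℝ) = 1 / j * (1 - 1 / ((j + 1 : ℕ) : ℝ)) := by
      push_cast
      field_simp
      ring
    refine h4.le.trans (mul_le_mul_of_nonneg_right ih ?_)
    push_cast
    rw [sub_nonneg, div_le_one (by positivity)]
    linarith

lemma WW_pos (j : ℕ) (hj : 1 ≤ j) : 0 < WW j := by
  have h := WW_ge j hj
  have hj0 : (0 : ℝ) < j := by exact_mod_cast hj
  exact lt_of_lt_of_le (by positivity) h

lemma inv_WW_le (j : ℕ) (hj : 1 ≤ j) : 1 / WW j ≤ j := by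
  have h := WW_ge j hj
  have hj0 : (0 : ℝ) < j := by exact_mod_cast hj
  rw [div_le_iff₀ (WW_pos j hj)]
  calc (1 : ℝ) = j * (1 / j) := by field_simp
    _ ≤ j * WW j := mul_le_mul_of_nonneg_left h hj0.le

/-- The error term. -/
noncomputable def EE (x : ℕ) : ℝ := (x : ℝ) ^ lam * Real.exp (-(Real.sqrt (Real.log x)) / 20000)

lemma EE_nonneg (x : ℕ) : 0 ≤ EE x := by unfold EE; positivity

lemma lam_gt : (31 : ℝ) / 40 < lam := by
  unfold lam
  rw [lt_div_iff₀ (Real.log_pos (by norm_num))]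
  have h4 : (31 : ℝ) / 40 * Real.log 4 = (31 * Real.log 4) / 40 := by ring
  rw [h4, div_lt_iff₀ (by norm_num)]
  have h1 : (31 : ℝ) * Real.log 4 = Real.log (4 ^ 31) := by rw [Real.log_pow]; norm_num
  have h2 : Real.log 3 * 40 = Real.log (3 ^ 40) := by rw [Real.log_pow]; norm_num; ring
  rw [h1, h2]
  exact Real.log_lt_log (by norm_num) (by norm_num)

lemma EE_mono {a b : ℕ} (ha : 3 ≤ a) (hab : a ≤ b) : EE a ≤ EE b := by
  have ha0 : (0 : ℝ) < a := by
    have : 0 < a := by omega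
    exact_mod_cast this
  have hab' : (a : ℝ) ≤ b := by exact_mod_cast hab
  have hb0 : (0 : ℝ) < b := lt_of_lt_of_le ha0 hab'
  have hL : Real.log a ≤ Real.log b := Real.log_le_log ha0 hab'
  have h1 : 1 ≤ Real.log a := by
    have h3 : (3 : ℝ) ≤ a := by exact_mod_cast ha
    rw [← Real.log_exp 1]
    refine Real.log_le_log (Real.exp_pos 1) ?_
    have := Real.exp_one_lt_d9
    linarith
  unfold EE
  rw [Real.rpow_def_of_pos ha0, Real.rpow_def_of_pos hb0, ← Real.exp_add, ← Real.exp_add,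
    Real.exp_le_exp]
  set s := Real.sqrt (Real.log a) with hs
  set t := Real.sqrt (Real.log b) with ht
  have hs1 : 1 ≤ s := by rw [hs]; exact Real.one_le_sqrt.mpr h1
  have hst : s ≤ t := Real.sqrt_le_sqrt hL
  have hs2 : s ^ 2 = Real.log a := Real.sq_sqrt (by linarith)
  have ht2 : t ^ 2 = Real.log b := Real.sq_sqrt (by linarith)
  have hlam := lam_gt
  rw [← hs2, ← ht2]
  nlinarith [mul_nonneg (sub_nonneg.mpr hst) (by linarith : (0 : ℝ) ≤ s + t - 1),
    mul_nonneg (mul_nonneg (sub_nonneg.mpr hst) (by linarith : (0 : ℝ) ≤ s + t))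
      (by linarith : (0 : ℝ) ≤ lam - 31 / 40)]

/-- Summation over the level sets of a monotone function. -/
lemma fibre {z : ℕ → ℕ} (hz : Monotone z) (N x : ℕ) (d : ℕ → ℝ) (B : ℝ) (hB0 : 0 ≤ B)
    (hB : ∀ a b j, N ≤ a → a < b → b ≤ x → (∀ n, a ≤ n → n < b → z n = j) →
      |∑ n ∈ Finset.Ico a b, d n| ≤ B) (hNx : N ≤ x) :
    |∑ n ∈ Finset.Ico N x, d n| ≤ ((z x : ℝ) + 1) * B := by
  have key : ∀ J y : ℕ, N ≤ y → y ≤ x → (∀ n, N ≤ n → n < y → z n < J) →
      |∑ n ∈ Finset.Ico N y, d n| ≤ (J : ℝ) * B := by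
    intro J
    induction J with
    | zero =>
      intro y hNy _ hy
      have : N = y := by
        by_contra hne
        exact absurd (hy N le_rfl (by omega)) (by omega)
      subst this
      simp
    | succ J ih =>
      intro y hNy hyx hy
      obtain ⟨t, ht1, ht2, ht3, ht4⟩ : ∃ t, N ≤ t ∧ t ≤ y ∧ (∀ n, N ≤ n → n < t → z n < J) ∧
          (∀ n, t ≤ n → n < y → z n = J) := by
        by_cases h : ∃ t, N ≤ t ∧ J ≤ z t
        · classical
          set t := Nat.find h with ht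
          have h1 := Nat.find_spec h
          rw [← ht] at h1
          by_cases hty : t ≤ y
          · refine ⟨t, h1.1, hty, ?_, ?_⟩
            · intro n hn1 hn2
              by_contra h3
              exact Nat.find_min h hn2 ⟨hn1, by omega⟩
            · intro n hn1 hn2
              have h3 := hy n (le_trans h1.1 hn1) hn2
              have h4 := hz hn1
              omega
          · refine ⟨y, hNy, le_rfl, ?_, ?_⟩
            · intro n hn1 hn2
              by_contra h3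
              exact Nat.find_min h (lt_of_lt_of_le hn2 (by omega)) ⟨hn1, by omega⟩
            · intro n hn1 hn2
              omega
        · push Not at h
          refine ⟨y, hNy, le_rfl, fun n hn1 _ => h n hn1, fun n hn1 hn2 => by omega⟩
      have h1 := ih t ht1 (by omega) ht3
      have h2 : |∑ n ∈ Finset.Ico t y, d n| ≤ B := by
        rcases Nat.lt_or_ge t y with h | h
        · exact hB t y J ht1 h hyx ht4
        · have : t = y := by omega
          subst this
          simpa using hB0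
      rw [← Finset.sum_Ico_consecutive d ht1 ht2]
      push_cast
      calc _ ≤ |∑ n ∈ Finset.Ico N t, d n| + |∑ n ∈ Finset.Ico t y, d n| := abs_add_le _ _
        _ ≤ J * B + B := add_le_add h1 h2
        _ = _ := by ring
  have := key (z x + 1) x hNx le_rfl (fun n _ hn2 => by
    have := hz hn2.le
    omega)
  push_cast at this
  exact this

/-- Abel summation. -/
lemma abel (N x : ℕ) (hNx : N ≤ x) (c g : ℕ → ℝ) :
    ∑ n ∈ Finset.Ico N x, c n * g n = (∑ m ∈ Finset.Ico N x, c m) * g x +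
      ∑ n ∈ Finset.Ico N x, (∑ m ∈ Finset.Ico N (n + 1), c m) * (g n - g (n + 1)) := by
  induction x, hNx using Nat.le_induction with
  | base => simp
  | succ x hx ih =>
    rw [Finset.sum_Ico_succ_top hx, ih, Finset.sum_Ico_succ_top hx (fun n => (∑ m ∈ Finset.Ico N (n + 1), c m) * (g n - g (n + 1))),
      Finset.sum_Ico_succ_top hx c]
    ring

lemma tele (N x : ℕ) (hNx : N ≤ x) (g : ℕ → ℝ) :
    ∑ n ∈ Finset.Ico N x, (g n - g (n + 1)) = g N - g x := by
  induction x, hNx using Nat.le_induction with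
  | base => simp
  | succ x hx ih =>
    rw [Finset.sum_Ico_succ_top hx, ih]
    ring

/-- Standing hypotheses from `N` on. -/
structure Std (κ : ℝ) (z : ℕ → ℕ) (N : ℕ) : Prop where
  three : 3 ≤ N
  mono : Monotone z
  zge : ∀ n, N ≤ n → 3 ≤ z n
  zle : ∀ n, N ≤ n → (z n : ℝ) ≤ Real.log n ^ κ
  kpos : 0 ≤ κ
  main : ∀ x j : ℕ, N ≤ x → 3 ≤ j → (j : ℝ) ≤ Real.log x ^ κ →
    |((FF x j : ℤ) : ℝ) - 3 * WW j * (FF x 3 : ℤ)| ≤ EE x

lemma Std.interval {κ : ℝ} {z : ℕ → ℕ} {N : ℕ} (h : Std κ z N) {a b j x : ℕ} (hNa : N ≤ a)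
    (hab : a < b) (hbx : b ≤ x) (hj : ∀ n, a ≤ n → n < b → z n = j) :
    |∑ n ∈ Finset.Ico a b, dd z n| ≤ 2 * ((z x : ℝ) * EE x) := by
  have hza : z a = j := hj a le_rfl hab
  have hj3 : 3 ≤ j := hza ▸ h.zge a hNa
  have hja : (j : ℝ) ≤ Real.log a ^ κ := hza ▸ h.zle a hNa
  have h3N := h.three
  have ha0 : (0 : ℝ) < a := by
    have : 0 < a := by omega
    exact_mod_cast this
  have hla : 0 ≤ Real.log a := Real.log_nonneg (by
    have : 1 ≤ a := by omega
    exact_mod_cast this)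
  have hjb : (j : ℝ) ≤ Real.log b ^ κ := by
    refine hja.trans (Real.rpow_le_rpow hla (Real.log_le_log ha0 ?_) h.kpos)
    exact_mod_cast hab.le
  have m1 := h.main a j hNa hj3 hja
  have m2 := h.main b j (by omega) hj3 hjb
  have hW := WW_pos j (by omega)
  have hWi := inv_WW_le j (by omega)
  have hsum : ∑ n ∈ Finset.Ico a b, dd z n =
      (1 / WW j) * ((((FF b j : ℤ) : ℝ) - 3 * WW j * (FF b 3 : ℤ)) -
        (((FF a j : ℤ) : ℝ) - 3 * WW j * (FF a 3 : ℤ))) := by
    have h1 : ∑ n ∈ Finset.Ico a b, dd z n =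
        ∑ n ∈ Finset.Ico a b, ((1 / WW j) * sw j n - 3 * sw 3 n) := by
      refine Finset.sum_congr rfl (fun n hn => ?_)
      rw [Finset.mem_Ico] at hn
      unfold dd
      rw [hj n hn.1 hn.2]
      ring
    rw [h1, Finset.sum_sub_distrib, ← Finset.mul_sum, ← Finset.mul_sum, FF_sub hab.le,
      FF_sub hab.le]
    field_simp
    ring
  have hjx : (j : ℝ) ≤ z x := by
    have h1 : z a ≤ z x := h.mono (by omega)
    rw [hza] at h1
    exact_mod_cast h1
  have ea := EE_mono (a := a) (b := x) (by omega) (by omega)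
  have eb := EE_mono (a := b) (b := x) (by omega) (by omega)
  have hE := EE_nonneg x
  rw [hsum, abs_mul, abs_of_pos (by positivity : 0 < 1 / WW j)]
  calc 1 / WW j * |(((FF b j : ℤ) : ℝ) - 3 * WW j * (FF b 3 : ℤ)) -
        (((FF a j : ℤ) : ℝ) - 3 * WW j * (FF a 3 : ℤ))|
      ≤ (z x : ℝ) * (2 * EE x) := by
        refine mul_le_mul (hWi.trans hjx) ?_ (abs_nonneg _) (by positivity)
        refine (abs_sub _ _).trans ?_
        linarith
    _ = _ := by ring

/-- The bound for the partial sums of the difference. -/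
noncomputable def BB (z : ℕ → ℕ) (x : ℕ) : ℝ := ((z x : ℝ) + 1) * (2 * ((z x : ℝ) * EE x))

lemma BB_nonneg (z : ℕ → ℕ) (x : ℕ) : 0 ≤ BB z x := by
  unfold BB
  have := EE_nonneg x
  positivity

lemma Std.BB_mono {κ : ℝ} {z : ℕ → ℕ} {N : ℕ} (h : Std κ z N) {a b : ℕ} (ha : N ≤ a)
    (hab : a ≤ b) : BB z a ≤ BB z b := by
  have h3N := h.three
  have h1 : (z a : ℝ) ≤ z b := by exact_mod_cast h.mono hab
  have h2 := EE_mono (a := a) (b := b) (by omega) hab
  have h3 := EE_nonneg a
  unfold BB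
  have h4 : (0 : ℝ) ≤ z a := by positivity
  have h5 : (z a : ℝ) * EE a ≤ (z b : ℝ) * EE b := mul_le_mul h1 h2 h3 (by linarith)
  refine mul_le_mul (by linarith) (by linarith) (by positivity) (by positivity)

lemma Std.partial_sum {κ : ℝ} {z : ℕ → ℕ} {N : ℕ} (h : Std κ z N) {x : ℕ} (hx : N ≤ x) :
    |∑ n ∈ Finset.Ico N x, dd z n| ≤ BB z x := by
  have hE := EE_nonneg x
  exact fibre h.mono N x (dd z) _ (by positivity)
    (fun a b j h1 h2 h3 h4 => h.interval h1 h2 h3 h4) hx

/-- The weight `1 / log n`. -/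
noncomputable def gg (n : ℕ) : ℝ := 1 / Real.log n

lemma gg_anti {a b : ℕ} (ha : 2 ≤ a) (hab : a ≤ b) : gg b ≤ gg a := by
  unfold gg
  have h2 : (2 : ℝ) ≤ a := by exact_mod_cast ha
  refine one_div_le_one_div_of_le (Real.log_pos (by linarith)) (Real.log_le_log (by linarith) ?_)
  exact_mod_cast hab

lemma gg_nonneg (n : ℕ) : 0 ≤ gg n := by
  unfold gg
  have : 0 ≤ Real.log n := Real.log_natCast_nonneg n
  positivity

lemma gg_le_one {a : ℕ} (ha : 3 ≤ a) : gg a ≤ 1 := by
  unfold gg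
  have h1 : 1 ≤ Real.log a := by
    have h3 : (3 : ℝ) ≤ a := by exact_mod_cast ha
    rw [← Real.log_exp 1]
    refine Real.log_le_log (Real.exp_pos 1) ?_
    have := Real.exp_one_lt_d9
    linarith
  rw [div_le_one (by linarith)]
  exact h1

/-- The weighted difference is small. -/
lemma Std.weighted {κ : ℝ} {z : ℕ → ℕ} {N : ℕ} (h : Std κ z N) {x : ℕ} (hx : N ≤ x) :
    |∑ n ∈ Finset.Ico N x, dd z n * gg n| ≤ BB z x := by
  have h3N := h.three
  rw [abel N x hx]
  have hB := BB_nonneg z x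
  have h1 : |(∑ m ∈ Finset.Ico N x, dd z m) * gg x| ≤ BB z x * gg x := by
    rw [abs_mul, abs_of_nonneg (gg_nonneg x)]
    exact mul_le_mul_of_nonneg_right (h.partial_sum hx) (gg_nonneg x)
  have h2 : |∑ n ∈ Finset.Ico N x, (∑ m ∈ Finset.Ico N (n + 1), dd z m) * (gg n - gg (n + 1))| ≤
      BB z x * (gg N - gg x) := by
    rw [← tele N x hx gg, Finset.mul_sum]
    refine (Finset.abs_sum_le_sum_abs _ _).trans (Finset.sum_le_sum (fun n hn => ?_))
    rw [Finset.mem_Ico] at hn
    have h3 : 0 ≤ gg n - gg (n + 1) := sub_nonneg.mpr (gg_anti (by omega) (by omega))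
    rw [abs_mul, abs_of_nonneg h3]
    refine mul_le_mul_of_nonneg_right ?_ h3
    exact (h.partial_sum (by omega)).trans (h.BB_mono (by omega) (by omega))
  have h4 := gg_le_one h.three
  calc _ ≤ BB z x * gg x + BB z x * (gg N - gg x) := (abs_add_le _ _).trans (add_le_add h1 h2)
    _ = BB z x * gg N := by ring
    _ ≤ BB z x * 1 := mul_le_mul_of_nonneg_left h4 hB
    _ = _ := mul_one _

end Pool.Agent.OGM31
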