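import Mathlib
import Pool.Agent.OGM31.Mean

set_option autoImplicit false

open Filter Topology

namespace Pool.Agent.OGM31

open Pool.Agent.Odious24

/-- The main term: numbers prime to 6 with weight `1 / log n`. -/
noncomputable def MM (x : ℕ) : ℝ := ∑ n ∈ Finset.range x, sw 3 n * gg n

lemma log_top : Tendsto (fun n : ℕ => Real.log (n : ℝ)) atTop atTop :=
  Real.tendsto_log_atTop.comp tendsto_natCast_atTop_atTop

lemma C3_eq {y : ℕ} (hy : 10 ≤ y) :
    ∑ m ∈ Finset.Ico 10 y, sw 3 m = ((FF y 3 : ℤ) : ℝ) - ((FF 10 3 : ℤ) : ℝ) := FF_sub hy 3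

lemma MM_split {x : ℕ} (hx : 10 ≤ x) :
    MM x = MM 10 + ∑ n ∈ Finset.Ico 10 x, sw 3 n * gg n := by
  unfold MM
  rw [Finset.sum_Ico_eq_sub _ hx]
  ring

lemma MM_lower {x : ℕ} (hx : 10 ≤ x) :
    (1 / 40) * (x : ℝ) ^ lam * gg x - (|MM 10| + |((FF 10 3 : ℤ) : ℝ)|) ≤ MM x := by
  rw [MM_split hx, abel 10 x hx]
  set K := |((FF 10 3 : ℤ) : ℝ)| with hK
  have hK0 : 0 ≤ K := abs_nonneg _
  have hC : ∀ y : ℕ, 10 ≤ y → (1 / 40) * (y : ℝ) ^ lam - K ≤ ∑ m ∈ Finset.Ico 10 y, sw 3 m := by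
    intro y hy
    rw [C3_eq hy]
    have h1 := FF_three_lower y hy
    have h2 := le_abs_self ((FF 10 3 : ℤ) : ℝ)
    linarith
  have h1 : ((1 / 40) * (x : ℝ) ^ lam - K) * gg x ≤ (∑ m ∈ Finset.Ico 10 x, sw 3 m) * gg x :=
    mul_le_mul_of_nonneg_right (hC x hx) (gg_nonneg x)
  have h2 : -K * (gg 10 - gg x) ≤
      ∑ n ∈ Finset.Ico 10 x, (∑ m ∈ Finset.Ico 10 (n + 1), sw 3 m) * (gg n - gg (n + 1)) := by
    rw [← tele 10 x hx gg, Finset.mul_sum]
    refine Finset.sum_le_sum (fun n hn => ?_)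
    rw [Finset.mem_Ico] at hn
    have h3 : 0 ≤ gg n - gg (n + 1) := sub_nonneg.mpr (gg_anti (by omega) (by omega))
    refine mul_le_mul_of_nonneg_right ?_ h3
    refine le_trans ?_ (hC (n + 1) (by omega))
    have : (0 : ℝ) ≤ ((n + 1 : ℕ) : ℝ) ^ lam := by positivity
    linarith
  have h4 : gg 10 ≤ 1 := gg_le_one (by norm_num)
  have h5 := gg_nonneg x
  have h6 := neg_abs_le (MM 10)
  have h7 : K * gg 10 ≤ K := by nlinarith
  nlinarith

lemma gg_sqrt {x : ℕ} (hx : 64 ≤ x) : gg (Nat.sqrt x) ≤ 3 * gg x := by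
  have h8 : 8 ≤ Nat.sqrt x := by
    rw [Nat.le_sqrt]
    omega
  have hx0 : (0 : ℝ) < x := by
    have : 0 < x := by omega
    exact_mod_cast this
  have hm0 : (0 : ℝ) < Nat.sqrt x := by
    have : 0 < Nat.sqrt x := by omega
    exact_mod_cast this
  have h1 : x ≤ Nat.sqrt x ^ 3 := by
    have h2 := Nat.sqrt_le_add x
    have h3 : Nat.sqrt x * Nat.sqrt x + Nat.sqrt x + Nat.sqrt x ≤ Nat.sqrt x ^ 3 := by
      have : Nat.sqrt x ^ 3 = Nat.sqrt x * Nat.sqrt x * Nat.sqrt x := by ring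
      rw [this]
      nlinarith
    omega
  have h2 : Real.log x ≤ 3 * Real.log (Nat.sqrt x) := by
    have h3 : (x : ℝ) ≤ (Nat.sqrt x : ℝ) ^ 3 := by exact_mod_cast h1
    have h4 := Real.log_le_log hx0 h3
    rw [Real.log_pow] at h4
    push_cast at h4
    exact h4
  have h3 : 0 < Real.log x := Real.log_pos (by
    have : (64 : ℝ) ≤ x := by exact_mod_cast hx
    linarith)
  have h4 : 0 < Real.log (Nat.sqrt x) := by linarith
  unfold gg
  rw [div_le_iff₀ h4]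
  calc (1 : ℝ) = 1 / Real.log x * Real.log x := by field_simp
    _ ≤ 1 / Real.log x * (3 * Real.log (Nat.sqrt x)) :=
        mul_le_mul_of_nonneg_left h2 (by positivity)
    _ = _ := by ring

lemma MM_upper {x : ℕ} (hx : 100 ≤ x) :
    MM x ≤ 12 * (x : ℝ) ^ lam * gg x + 3 * (x : ℝ) ^ (lam / 2) +
      (|MM 10| + 5 * |((FF 10 3 : ℤ) : ℝ)|) := by
  have hx10 : 10 ≤ x := by omega
  have hm : 10 ≤ Nat.sqrt x := by
    rw [Nat.le_sqrt]
    omega
  have hmx : Nat.sqrt x ≤ x := Nat.sqrt_le_self x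
  rw [MM_split hx10, abel 10 x hx10]
  set K := |((FF 10 3 : ℤ) : ℝ)| with hK
  have hK0 : 0 ≤ K := abs_nonneg _
  have hC : ∀ y : ℕ, 10 ≤ y → ∑ m ∈ Finset.Ico 10 y, sw 3 m ≤ 3 * (y : ℝ) ^ lam + K := by
    intro y hy
    rw [C3_eq hy]
    have h1 := FF_three_upper y (by omega)
    have h2 := neg_abs_le ((FF 10 3 : ℤ) : ℝ)
    linarith
  have h1 : (∑ m ∈ Finset.Ico 10 x, sw 3 m) * gg x ≤ (3 * (x : ℝ) ^ lam + K) * gg x :=
    mul_le_mul_of_nonneg_right (hC x hx10) (gg_nonneg x)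
  have h2 : ∀ a b : ℕ, 10 ≤ a → a ≤ b →
      ∑ n ∈ Finset.Ico a b, (∑ m ∈ Finset.Ico 10 (n + 1), sw 3 m) * (gg n - gg (n + 1)) ≤
        (3 * (b : ℝ) ^ lam + K) * (gg a - gg b) := by
    intro a b ha hab
    rw [← tele a b hab gg, Finset.mul_sum]
    refine Finset.sum_le_sum (fun n hn => ?_)
    rw [Finset.mem_Ico] at hn
    have h3 : 0 ≤ gg n - gg (n + 1) := sub_nonneg.mpr (gg_anti (by omega) (by omega))
    refine mul_le_mul_of_nonneg_right ?_ h3
    refine (hC (n + 1) (by omega)).trans ?_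
    have h4 : ((n + 1 : ℕ) : ℝ) ≤ b := by
      have : n + 1 ≤ b := by omega
      exact_mod_cast this
    have h5 : ((n + 1 : ℕ) : ℝ) ^ lam ≤ (b : ℝ) ^ lam :=
      Real.rpow_le_rpow (by positivity) h4 lam_pos.le
    linarith
  have h3 := h2 10 (Nat.sqrt x) le_rfl hm
  have h4 := h2 (Nat.sqrt x) x hm hmx
  have h5 : ∑ n ∈ Finset.Ico 10 x, (∑ m ∈ Finset.Ico 10 (n + 1), sw 3 m) * (gg n - gg (n + 1)) =
      ∑ n ∈ Finset.Ico 10 (Nat.sqrt x),
        (∑ m ∈ Finset.Ico 10 (n + 1), sw 3 m) * (gg n - gg (n + 1)) +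
      ∑ n ∈ Finset.Ico (Nat.sqrt x) x,
        (∑ m ∈ Finset.Ico 10 (n + 1), sw 3 m) * (gg n - gg (n + 1)) :=
    (Finset.sum_Ico_consecutive _ hm hmx).symm
  rw [h5]
  have hs : ((Nat.sqrt x : ℕ) : ℝ) ^ lam ≤ (x : ℝ) ^ (lam / 2) := by
    have h6 : ((Nat.sqrt x : ℕ) : ℝ) ≤ (x : ℝ) ^ ((1 : ℝ) / 2) := by
      rw [← Real.sqrt_eq_rpow]
      refine Real.le_sqrt_of_sq_le ?_
      have := Nat.sqrt_le' x
      exact_mod_cast this
    calc ((Nat.sqrt x : ℕ) : ℝ) ^ lam ≤ ((x : ℝ) ^ ((1 : ℝ) / 2)) ^ lam :=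
          Real.rpow_le_rpow (by positivity) h6 lam_pos.le
      _ = (x : ℝ) ^ (lam / 2) := by
          rw [← Real.rpow_mul (by positivity)]
          congr 1
          ring
  have hP : (0 : ℝ) ≤ (x : ℝ) ^ lam := by positivity
  have hQ : (0 : ℝ) ≤ ((Nat.sqrt x : ℕ) : ℝ) ^ lam := by positivity
  have g1 := gg_nonneg x
  have g2 := gg_nonneg (Nat.sqrt x)
  have g3 : gg 10 ≤ 1 := gg_le_one (by norm_num)
  have g4 : gg x ≤ 1 := gg_le_one (by omega)
  have g5 : gg (Nat.sqrt x) ≤ 3 * gg x := gg_sqrt (by omega)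
  have h6 := le_abs_self (MM 10)
  have e1 : (3 * ((Nat.sqrt x : ℕ) : ℝ) ^ lam + K) * (gg 10 - gg (Nat.sqrt x)) ≤
      3 * (x : ℝ) ^ (lam / 2) + K := by
    calc (3 * ((Nat.sqrt x : ℕ) : ℝ) ^ lam + K) * (gg 10 - gg (Nat.sqrt x))
        ≤ (3 * ((Nat.sqrt x : ℕ) : ℝ) ^ lam + K) * 1 :=
          mul_le_mul_of_nonneg_left (by linarith) (by positivity)
      _ ≤ _ := by linarith
  have e2 : (3 * (x : ℝ) ^ lam + K) * (gg (Nat.sqrt x) - gg x) ≤
      (3 * (x : ℝ) ^ lam + K) * (3 * gg x) :=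
    mul_le_mul_of_nonneg_left (by linarith) (by positivity)
  have e3 : K * gg x ≤ K := by nlinarith
  nlinarith

lemma lam_le : lam ≤ 1 := lam_le_one

/-- Powers of `x` beat logarithms and constants. -/
lemma ev_pow_log {a : ℝ} (ha : 0 < a) (C : ℝ) : ∀ᶠ x : ℕ in atTop, C * Real.log x ≤ (x : ℝ) ^ a := by
  have h1 : ∀ᶠ y : ℝ in atTop, C * Real.log y ≤ y ^ a := by
    have h := (isLittleO_log_rpow_atTop ha).def (show 0 < 1 / (|C| + 1) by positivity)
    filter_upwards [h, eventually_ge_atTop 1] with y hy hy1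
    have h2 : 0 ≤ Real.log y := Real.log_nonneg hy1
    have h3 : 0 ≤ y ^ a := by positivity
    rw [Real.norm_of_nonneg h2, Real.norm_of_nonneg h3] at hy
    have h4 : C ≤ |C| + 1 := by linarith [le_abs_self C]
    calc C * Real.log y ≤ (|C| + 1) * Real.log y := mul_le_mul_of_nonneg_right h4 h2
      _ ≤ (|C| + 1) * (1 / (|C| + 1) * y ^ a) := mul_le_mul_of_nonneg_left hy (by positivity)
      _ = y ^ a := by field_simp
  exact tendsto_natCast_atTop_atTop.eventually h1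

lemma ev_pow_const {a : ℝ} (ha : 0 < a) (C : ℝ) : ∀ᶠ x : ℕ in atTop, C ≤ (x : ℝ) ^ a :=
  ((tendsto_rpow_atTop ha).comp tendsto_natCast_atTop_atTop).eventually_ge_atTop C

lemma MM_bounds : ∀ᶠ x : ℕ in atTop, (1 / 50) * (x : ℝ) ^ lam / Real.log x ≤ MM x ∧
    MM x ≤ 13 * (x : ℝ) ^ lam / Real.log x := by
  set K := |MM 10| + 5 * |((FF 10 3 : ℤ) : ℝ)| with hK
  have hlam := lam_gt
  filter_upwards [eventually_ge_atTop 100, ev_pow_log lam_pos (200 * (K + 1)),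
    ev_pow_log (show 0 < lam / 2 by linarith) 6] with x hx h1 h2
  have hx3 : (3 : ℝ) ≤ x := by
    have : 3 ≤ x := by omega
    exact_mod_cast this
  have hlog : 1 ≤ Real.log x := by
    rw [← Real.log_exp 1]
    refine Real.log_le_log (Real.exp_pos 1) ?_
    have := Real.exp_one_lt_d9
    linarith
  have hl0 : 0 < Real.log x := by linarith
  have a1 := MM_lower (x := x) (by omega)
  have a2 := MM_upper (x := x) hx
  have hF : 0 ≤ |((FF 10 3 : ℤ) : ℝ)| := abs_nonneg _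
  have hM : 0 ≤ |MM 10| := abs_nonneg _
  have hg : gg x = 1 / Real.log x := rfl
  have hgx := gg_nonneg x
  have hP : (0 : ℝ) ≤ (x : ℝ) ^ lam := by positivity
  have e1 : (K + 1) ≤ (1 / 200) * (x : ℝ) ^ lam * gg x := by
    rw [hg]
    have : (1 / 200) * (x : ℝ) ^ lam * (1 / Real.log x) = ((1 / 200) * (x : ℝ) ^ lam) / Real.log x := by
      ring
    rw [this, le_div_iff₀ hl0]
    linarith
  have e2 : 3 * (x : ℝ) ^ (lam / 2) ≤ (1 / 2) * (x : ℝ) ^ lam * gg x := by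
    rw [hg]
    have h3 : (x : ℝ) ^ lam = (x : ℝ) ^ (lam / 2) * (x : ℝ) ^ (lam / 2) := by
      rw [← Real.rpow_add (by linarith)]
      congr 1
      ring
    have : (1 / 2) * (x : ℝ) ^ lam * (1 / Real.log x) = ((1 / 2) * (x : ℝ) ^ lam) / Real.log x := by
      ring
    rw [this, le_div_iff₀ hl0, h3]
    have h4 : (0 : ℝ) ≤ (x : ℝ) ^ (lam / 2) := by positivity
    nlinarith
  constructor
  · have : (1 / 50) * (x : ℝ) ^ lam / Real.log x = (1 / 50) * (x : ℝ) ^ lam * gg x := by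
      rw [hg]; ring
    rw [this]
    nlinarith [mul_nonneg hP hgx]
  · have : 13 * (x : ℝ) ^ lam / Real.log x = 13 * (x : ℝ) ^ lam * gg x := by
      rw [hg]; ring
    rw [this]
    nlinarith [mul_nonneg hP hgx]

/-- The error terms. -/
lemma ev_err (κ K : ℝ) (_hκ : 0 ≤ κ) : ∀ᶠ x : ℕ in atTop, ∀ w : ℝ, 0 ≤ w → w ≤ Real.log x ^ κ →
    (w + 1) * (2 * (w * EE x)) + 2 * (x : ℝ) ^ ((31 : ℝ) / 40) + K ≤
      (x : ℝ) ^ lam * Real.exp (-(Real.sqrt (Real.log x)) / 30000) := by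
  have hst : Tendsto (fun x : ℕ => Real.sqrt (Real.log x)) atTop atTop :=
    Real.tendsto_sqrt_atTop.comp log_top
  have h1 : Tendsto (fun t : ℝ => t ^ (4 * κ) * Real.exp (-(1 / 60000) * t)) atTop (𝓝 0) :=
    tendsto_rpow_mul_exp_neg_mul_atTop_nhds_zero (4 * κ) (1 / 60000) (by norm_num)
  have h2 : ∀ᶠ x : ℕ in atTop, (Real.sqrt (Real.log x)) ^ (4 * κ) *
      Real.exp (-(1 / 60000) * Real.sqrt (Real.log x)) < 1 / 12 :=
    (h1.comp hst).eventually (gt_mem_nhds (by norm_num))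
  have hlam := lam_gt
  set δ := lam - 31 / 40 with hδ
  have hδ0 : 0 < δ := by linarith
  have h3 : Tendsto (fun t : ℝ => t ^ (0 : ℝ) * Real.exp (-(δ / 2) * t)) atTop (𝓝 0) :=
    tendsto_rpow_mul_exp_neg_mul_atTop_nhds_zero 0 (δ / 2) (by linarith)
  have h4 : ∀ᶠ x : ℕ in atTop, (Real.log x) ^ (0 : ℝ) *
      Real.exp (-(δ / 2) * Real.log x) < 1 / (6 * (|K| + 2)) :=
    (h3.comp log_top).eventually (gt_mem_nhds (by positivity))
  have h5 : ∀ᶠ x : ℕ in atTop, max 1 (1 / (15000 * δ)) ≤ Real.sqrt (Real.log x) :=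
    hst.eventually_ge_atTop _
  filter_upwards [h2, h4, h5, eventually_ge_atTop 3] with x a2 a4 a5 hx w hw0 hw
  have hx0 : (0 : ℝ) < x := by
    have : 0 < x := by omega
    exact_mod_cast this
  have hx1 : (1 : ℝ) ≤ x := by
    have : 1 ≤ x := by omega
    exact_mod_cast this
  set L := Real.log x with hL
  set t := Real.sqrt L with ht
  have ht1 : 1 ≤ t := (le_max_left _ _).trans a5
  have ht2 : 1 / (15000 * δ) ≤ t := (le_max_right _ _).trans a5
  have hL0 : 0 ≤ L := Real.log_nonneg hx1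
  have htt : t ^ 2 = L := Real.sq_sqrt hL0
  have hL1 : 1 ≤ L := by rw [← htt]; nlinarith
  set P := (x : ℝ) ^ lam with hP
  have hP0 : 0 < P := Real.rpow_pos_of_pos hx0 _
  set X := Real.exp (-t / 30000) with hX
  have hX0 : 0 < X := Real.exp_pos _
  -- first part
  have b1 : (w + 1) * (2 * (w * EE x)) ≤ (1 / 3) * (P * X) := by
    have hLk : 1 ≤ L ^ κ := Real.one_le_rpow hL1 _hκ
    have c1 : (w + 1) * (2 * (w * EE x)) ≤ 4 * (L ^ κ * L ^ κ) * EE x := by
      have hE := EE_nonneg x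
      have c2 : (w + 1) * w ≤ 2 * L ^ κ * L ^ κ := by
        refine mul_le_mul (by linarith) hw hw0 (by positivity)
      calc (w + 1) * (2 * (w * EE x)) = 2 * ((w + 1) * w) * EE x := by ring
        _ ≤ 2 * (2 * L ^ κ * L ^ κ) * EE x :=
            mul_le_mul_of_nonneg_right (by linarith) hE
        _ = _ := by ring
    have c3 : L ^ κ * L ^ κ = t ^ (4 * κ) := by
      rw [← htt, ← Real.rpow_natCast, ← Real.rpow_mul (by linarith), ← Real.rpow_add (by linarith)]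
      congr 1
      push_cast
      ring
    have c4 : EE x = P * (Real.exp (-(1 / 60000) * t) * X) := by
      unfold EE
      rw [← hL, ← ht, ← hP, hX, ← Real.exp_add]
      congr 2
      ring
    refine c1.trans ?_
    rw [c3, c4]
    have c5 : t ^ (4 * κ) * Real.exp (-(1 / 60000) * t) ≤ 1 / 12 := a2.le
    calc 4 * t ^ (4 * κ) * (P * (Real.exp (-(1 / 60000) * t) * X))
        = 4 * (t ^ (4 * κ) * Real.exp (-(1 / 60000) * t)) * (P * X) := by ring
      _ ≤ 4 * (1 / 12) * (P * X) := by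
          refine mul_le_mul_of_nonneg_right ?_ (by positivity)
          linarith
      _ = _ := by ring
  -- second part
  have b2 : 2 * (x : ℝ) ^ ((31 : ℝ) / 40) + K ≤ (1 / 3) * (P * X) := by
    have c1 : (x : ℝ) ^ ((31 : ℝ) / 40) = P * Real.exp (-δ * L) := by
      rw [hP, Real.rpow_def_of_pos hx0, Real.rpow_def_of_pos hx0, ← Real.exp_add, ← hL]
      congr 1
      rw [hδ]
      ring
    have c2 : (1 : ℝ) ≤ (x : ℝ) ^ ((31 : ℝ) / 40) := Real.one_le_rpow hx1 (by norm_num)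
    have c3 : 2 * (x : ℝ) ^ ((31 : ℝ) / 40) + K ≤ (|K| + 2) * (x : ℝ) ^ ((31 : ℝ) / 40) := by
      have := le_abs_self K
      have h9 := abs_nonneg K
      nlinarith
    refine c3.trans ?_
    rw [c1]
    have c4 : Real.exp (-(δ / 2) * L) ≤ 1 / (6 * (|K| + 2)) := by
      have := a4.le
      rwa [Real.rpow_zero, one_mul] at this
    have c5 : Real.exp (-(δ / 2) * L) ≤ X := by
      rw [hX, Real.exp_le_exp, ← htt]
      have : 1 ≤ 15000 * δ * t := by
        rw [div_le_iff₀ (by positivity)] at ht2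
        linarith
      nlinarith
    have c6 : Real.exp (-δ * L) = Real.exp (-(δ / 2) * L) * Real.exp (-(δ / 2) * L) := by
      rw [← Real.exp_add]
      congr 1
      ring
    rw [c6]
    have c7 : Real.exp (-(δ / 2) * L) * Real.exp (-(δ / 2) * L) ≤ 1 / (6 * (|K| + 2)) * X :=
      mul_le_mul c4 c5 (Real.exp_pos _).le (by positivity)
    calc (|K| + 2) * (P * (Real.exp (-(δ / 2) * L) * Real.exp (-(δ / 2) * L)))
        ≤ (|K| + 2) * (P * (1 / (6 * (|K| + 2)) * X)) := by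
          refine mul_le_mul_of_nonneg_left (mul_le_mul_of_nonneg_left c7 hP0.le) (by positivity)
      _ = (1 / 6) * (P * X) := by field_simp
      _ ≤ (1 / 3) * (P * X) := mul_le_mul_of_nonneg_right (by norm_num) (by positivity)
  have b3 : 0 ≤ P * X := by positivity
  linarith

/-- The error is of smaller order than `x ^ lam / log x`. -/
lemma ev_small : ∀ᶠ x : ℕ in atTop, (x : ℝ) ^ lam * Real.exp (-(Real.sqrt (Real.log x)) / 30000) ≤
    (1 / 100) * ((x : ℝ) ^ lam / Real.log x) := by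
  have hst : Tendsto (fun x : ℕ => Real.sqrt (Real.log x)) atTop atTop :=
    Real.tendsto_sqrt_atTop.comp log_top
  have h1 : Tendsto (fun t : ℝ => t ^ (2 : ℝ) * Real.exp (-(1 / 30000) * t)) atTop (𝓝 0) :=
    tendsto_rpow_mul_exp_neg_mul_atTop_nhds_zero 2 (1 / 30000) (by norm_num)
  have h2 : ∀ᶠ x : ℕ in atTop, (Real.sqrt (Real.log x)) ^ (2 : ℝ) *
      Real.exp (-(1 / 30000) * Real.sqrt (Real.log x)) < 1 / 100 :=
    (h1.comp hst).eventually (gt_mem_nhds (by norm_num))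
  filter_upwards [h2, log_top.eventually_ge_atTop 1] with x a2 hL1
  set L := Real.log (x : ℝ) with hL
  have hL0 : 0 < L := by linarith
  have htt : (Real.sqrt L) ^ (2 : ℝ) = L := by
    rw [Real.rpow_two]
    exact Real.sq_sqrt hL0.le
  rw [htt] at a2
  have h3 : Real.exp (-(Real.sqrt L) / 30000) ≤ (1 / 100) / L := by
    rw [le_div_iff₀ hL0]
    have : -(Real.sqrt L) / 30000 = -(1 / 30000) * Real.sqrt L := by ring
    rw [this]
    linarith
  calc (x : ℝ) ^ lam * Real.exp (-(Real.sqrt L) / 30000) ≤ (x : ℝ) ^ lam * ((1 / 100) / L) :=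
        mul_le_mul_of_nonneg_left h3 (by positivity)
    _ = _ := by ring

end Pool.Agent.OGM31
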