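import Mathlib
import Pool.Agent.OGM31.Sum3
import Pool.Agent.OGM31.Conc

set_option autoImplicit false

open Filter Topology MeasureTheory ProbabilityTheory

namespace Pool.Agent.OGM31

open Pool.Agent.Odious24

lemma kpos_of {κ : ℝ} {z : ℕ → ℕ}
    (h : ∀ᶠ n : ℕ in atTop, 3 ≤ z n ∧ (z n : ℝ) ≤ Real.log n ^ κ) : 0 ≤ κ := by
  by_contra hκ
  push Not at hκ
  obtain ⟨n, hn, hn2⟩ := (h.and (log_top.eventually_ge_atTop 1)).exists
  have h1 : (3 : ℝ) ≤ z n := by exact_mod_cast hn.1
  have h2 : Real.log n ^ κ ≤ 1 := Real.rpow_le_one_of_one_le_of_nonpos hn2 hκ.le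
  linarith [hn.2]

lemma std_of {κ : ℝ} (hκ : κ < 1 / (2 - Real.log 3 / Real.log 2)) {z : ℕ → ℕ} (hz : Monotone z)
    (h : ∀ᶠ n : ℕ in atTop, 3 ≤ z n ∧ (z n : ℝ) ≤ Real.log n ^ κ) (N0 : ℕ) :
    ∃ N, N0 ≤ N ∧ Std κ z N := by
  obtain ⟨X, hX⟩ := Pool.Agent.Odious24.final κ hκ
  obtain ⟨N1, hN1⟩ := eventually_atTop.mp h
  refine ⟨max (max N0 X) (max N1 3), le_trans (le_max_left _ _) (le_max_left _ _), ?_⟩
  refine ⟨le_trans (le_max_right _ _) (le_max_right _ _), hz, ?_, ?_, kpos_of h, ?_⟩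
  · intro n hn
    exact (hN1 n (le_trans (le_trans (le_max_left _ _) (le_max_right _ _)) hn)).1
  · intro n hn
    exact (hN1 n (le_trans (le_trans (le_max_left _ _) (le_max_right _ _)) hn)).2
  · intro x j hx hj hjx
    exact (hX x j (le_trans (le_trans (le_max_right _ _) (le_max_left _ _)) hx) hj hjx).2.2

/-- `x ^ lam / log x` is increasing. -/
lemma ratio_mono {n x : ℕ} (hn : 10 ≤ n) (hnx : n ≤ x) :
    (n : ℝ) ^ lam / Real.log n ≤ (x : ℝ) ^ lam / Real.log x := by
  have hn10 : (10 : ℝ) ≤ n := by exact_mod_cast hn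
  have hn0 : (0 : ℝ) < n := by linarith
  have hnx' : (n : ℝ) ≤ x := by exact_mod_cast hnx
  have hx0 : (0 : ℝ) < x := by linarith
  have hl2 : 2 ≤ Real.log n := by
    have h1 : Real.exp 2 ≤ 10 := by
      have h2 := Real.exp_one_lt_d9
      have h3 : Real.exp 2 = Real.exp 1 * Real.exp 1 := by rw [← Real.exp_add]; norm_num
      rw [h3]
      have h4 := Real.exp_pos 1
      nlinarith
    rw [← Real.log_exp 2]
    exact Real.log_le_log (Real.exp_pos 2) (by linarith)
  have hlx : Real.log n ≤ Real.log x := Real.log_le_log hn0 hnx'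
  rw [div_le_div_iff₀ (by linarith) (by linarith)]
  have hlam := lam_gt
  set v := Real.log x - Real.log n with hv
  have hv0 : 0 ≤ v := by linarith
  have h1 : (x : ℝ) ^ lam = (n : ℝ) ^ lam * Real.exp (lam * v) := by
    rw [Real.rpow_def_of_pos hx0, Real.rpow_def_of_pos hn0, ← Real.exp_add]
    congr 1
    rw [hv]
    ring
  rw [h1]
  have h2 := Real.add_one_le_exp (lam * v)
  have h3 : Real.log x = Real.log n + v := by rw [hv]; ring
  rw [h3]
  have h4 : (0 : ℝ) < (n : ℝ) ^ lam := Real.rpow_pos_of_pos hn0 _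
  have h5 : Real.log n + v ≤ Real.exp (lam * v) * Real.log n := by
    have h6 : (lam * v + 1) * Real.log n ≤ Real.exp (lam * v) * Real.log n :=
      mul_le_mul_of_nonneg_right h2 (by linarith)
    have h7 : v ≤ lam * v * Real.log n := by
      have h8 : 1 ≤ lam * Real.log n := by nlinarith
      nlinarith
    linarith
  nlinarith

/-- The signed count over the first `n` selected numbers. -/
lemma nth_sum {P : ℕ → Prop} [DecidablePred P] (hP : (Set.ofPred P).Infinite) (f : ℕ → ℤ) (n : ℕ) :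
    ∑ i ∈ Finset.range n, f (Nat.nth P i) = ∑ m ∈ (Finset.range (Nat.nth P n)).filter P, f m := by
  symm
  refine Finset.sum_nbij' (fun m => Nat.count P m) (fun i => Nat.nth P i) ?_ ?_ ?_ ?_ ?_
  · intro m hm
    simp only [Finset.mem_filter, Finset.mem_range] at hm ⊢
    have h1 : Nat.nth P (Nat.count P m) = m := Nat.nth_count hm.2
    by_contra h2
    have h3 : Nat.nth P n ≤ Nat.nth P (Nat.count P m) :=
      (Nat.nth_strictMono hP).monotone (by omega)
    omega
  · intro i hi
    simp only [Finset.mem_filter, Finset.mem_range] at hi ⊢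
    exact ⟨Nat.nth_strictMono hP hi, Nat.nth_mem_of_infinite hP i⟩
  · intro m hm
    simp only [Finset.mem_filter, Finset.mem_range] at hm
    exact Nat.nth_count hm.2
  · intro i _
    exact Nat.count_nth_of_infinite hP i
  · intro m hm
    simp only [Finset.mem_filter, Finset.mem_range] at hm
    show f m = f (Nat.nth P (Nat.count P m))
    rw [Nat.nth_count hm.2]

variable {Ω : Type*} [MeasurableSpace Ω]

theorem main (μ : Measure Ω) [IsProbabilityMeasure μ]
    (A : ℕ → Set Ω) (hA : ∀ n, MeasurableSet (A n)) (hind : iIndepSet A μ)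
    (κ : ℝ) (hκ : κ < 1 / (2 - Real.log 3 / Real.log 2)) (z : ℕ → ℕ) (hz : Monotone z)
    (hzr : ∀ᶠ n : ℕ in atTop, 3 ≤ z n ∧ (z n : ℝ) ≤ Real.log n ^ κ)
    (h1 : ∀ᶠ n : ℕ in atTop, Sift (z n) n → μ.real (A n) = 1 / (WW (z n) * Real.log n))
    (h0 : ∀ᶠ n : ℕ in atTop, ¬ Sift (z n) n → μ.real (A n) = 0) :
    ∀ᵐ ω ∂μ, ∀ᶠ x : ℕ in atTop,
      |∑ n ∈ Finset.range x, (A n).indicator (fun _ => e n) ω - 3 * MM x| ≤
        (x : ℝ) ^ lam * Real.exp (-(Real.sqrt (Real.log x)) / 30000) := by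
  classical
  obtain ⟨N0, hN0⟩ := eventually_atTop.mp (h1.and h0)
  obtain ⟨N, hNN, hS⟩ := std_of hκ hz hzr N0
  set K := |∑ n ∈ Finset.range N, e n * μ.real (A n) - 3 * MM N| with hK
  have hmean : ∀ x : ℕ, N ≤ x → |∑ n ∈ Finset.range x, e n * μ.real (A n) - 3 * MM x| ≤
      BB z x + K := by
    intro x hx
    have e1 : ∑ n ∈ Finset.Ico N x, e n * μ.real (A n) - 3 * ∑ n ∈ Finset.Ico N x, sw 3 n * gg n =
        ∑ n ∈ Finset.Ico N x, dd z n * gg n := by
      rw [Finset.mul_sum, ← Finset.sum_sub_distrib]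
      refine Finset.sum_congr rfl (fun n hn => ?_)
      rw [Finset.mem_Ico] at hn
      have h2 := hN0 n (by omega)
      by_cases h : Sift (z n) n
      · rw [h2.1 h]
        unfold dd gg
        have h3 : sw (z n) n = e n := by unfold sw; rw [if_pos h]
        have h4 : (1 : ℝ) / (WW (z n) * Real.log n) = (1 / WW (z n)) * (1 / Real.log n) := by
          rw [one_div_mul_one_div]
        rw [h3, h4]
        ring
      · rw [h2.2 h]
        unfold dd
        have h3 : sw (z n) n = 0 := by unfold sw; rw [if_neg h]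
        rw [h3]
        ring
    have e2 : ∑ n ∈ Finset.range x, e n * μ.real (A n) - 3 * MM x =
        (∑ n ∈ Finset.range N, e n * μ.real (A n) - 3 * MM N) +
          ∑ n ∈ Finset.Ico N x, dd z n * gg n := by
      rw [← e1, Finset.sum_Ico_eq_sub _ hx, Finset.sum_Ico_eq_sub _ hx]
      unfold MM
      ring
    rw [e2]
    refine (abs_add_le _ _).trans ?_
    have := hS.weighted hx
    linarith
  filter_upwards [ae_dev hA hind e (fun n => (abs_e n).le)] with ω hω
  filter_upwards [hω, eventually_ge_atTop N, ev_err κ K hS.kpos] with x a1 a2 a3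
  have a4 := a3 (z x) (by positivity) (hS.zle x a2)
  have a5 := hmean x a2
  have a6 : (BB z x) = ((z x : ℝ) + 1) * (2 * ((z x : ℝ) * EE x)) := rfl
  calc |∑ n ∈ Finset.range x, (A n).indicator (fun _ => e n) ω - 3 * MM x|
      ≤ |∑ n ∈ Finset.range x, (A n).indicator (fun _ => e n) ω -
          ∑ n ∈ Finset.range x, e n * μ.real (A n)| +
        |∑ n ∈ Finset.range x, e n * μ.real (A n) - 3 * MM x| := abs_sub_le _ _ _
    _ ≤ 2 * (x : ℝ) ^ ((31 : ℝ) / 40) + (BB z x + K) := add_le_add a1 a5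
    _ ≤ _ := by rw [a6]; linarith

/-- From the asymptotic formula to the exact order. -/
lemma order_of {S : ℕ → ℝ} (h : ∀ᶠ x : ℕ in atTop, |S x - 3 * MM x| ≤
      (x : ℝ) ^ lam * Real.exp (-(Real.sqrt (Real.log x)) / 30000)) :
    ∀ᶠ x : ℕ in atTop, (1 / 20) * ((x : ℝ) ^ lam / Real.log x) ≤ S x ∧
      S x ≤ 40 * ((x : ℝ) ^ lam / Real.log x) := by
  filter_upwards [h, ev_small, MM_bounds, log_top.eventually_ge_atTop 1] with x a b c d
  have a1 := abs_le.mp a
  have e1 : (1 / 50) * (x : ℝ) ^ lam / Real.log x = (1 / 50) * ((x : ℝ) ^ lam / Real.log x) := by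
    ring
  have e2 : 13 * (x : ℝ) ^ lam / Real.log x = 13 * ((x : ℝ) ^ lam / Real.log x) := by ring
  have hp : 0 ≤ (x : ℝ) ^ lam / Real.log x := by positivity
  rw [e1, e2] at c
  constructor <;> linarith [a1.1, a1.2, c.1, c.2]

/-- The index form. -/
lemma index_of {P : ℕ → Prop} (hS : ∀ᶠ x : ℕ in atTop, (1 / 20) * ((x : ℝ) ^ lam / Real.log x) ≤
      ∑ n ∈ Finset.range x, (Set.ofPred P).indicator (fun n => e n) n) :
    ∀ᶠ n : ℕ in atTop, (1 / 20) * ((n : ℝ) ^ lam / Real.log n) ≤
      ((∑ i ∈ Finset.range n, Nceb06bb4.signWeight (Nat.nth P i) : ℤ) : ℝ) := by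
  classical
  have hinf : (Set.ofPred P).Infinite := by
    intro hfin
    obtain ⟨B, hB⟩ := hfin.bddAbove
    have h1 : ∀ x : ℕ, ∑ n ∈ Finset.range x, (Set.ofPred P).indicator (fun n => e n) n ≤ (B + 1 : ℕ) := by
      intro x
      calc ∑ n ∈ Finset.range x, (Set.ofPred P).indicator (fun n => e n) n
          ≤ ∑ n ∈ Finset.range x, (if n ∈ Finset.range (B + 1) then (1 : ℝ) else 0) := by
            refine Finset.sum_le_sum (fun n _ => ?_)
            by_cases h : n ∈ Set.ofPred P
            · rw [Set.indicator_of_mem h, if_pos (Finset.mem_range.mpr (by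
                have := hB h
                omega))]
              exact (le_abs_self _).trans (abs_e n).le
            · rw [Set.indicator_of_notMem h]
              split_ifs <;> norm_num
        _ = ∑ n ∈ (Finset.range x).filter (fun n => n ∈ Finset.range (B + 1)), (1 : ℝ) := by
            rw [Finset.sum_filter]
        _ ≤ ∑ n ∈ Finset.range (B + 1), (1 : ℝ) := by
            refine Finset.sum_le_sum_of_subset_of_nonneg ?_ (fun _ _ _ => zero_le_one)
            intro n hn
            exact (Finset.mem_filter.mp hn).2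
        _ = ((B + 1 : ℕ) : ℝ) := by simp
    have h2 := ev_pow_log (show 0 < lam by have := lam_gt; linarith) (20 * (((B + 1 : ℕ) : ℝ) + 1))
    obtain ⟨x, hx1, hx2, hx3⟩ := (hS.and (h2.and (log_top.eventually_ge_atTop 1))).exists
    have h3 := h1 x
    have h4 : ((B + 1 : ℕ) : ℝ) + 1 ≤ (1 / 20) * ((x : ℝ) ^ lam / Real.log x) := by
      have h5 : (1 / 20) * ((x : ℝ) ^ lam / Real.log x) = ((1 / 20) * (x : ℝ) ^ lam) / Real.log x := by
        ring
      rw [h5, le_div_iff₀ (by linarith)]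
      linarith
    linarith
  obtain ⟨X, hX⟩ := eventually_atTop.mp hS
  filter_upwards [eventually_ge_atTop X, eventually_ge_atTop 10] with n hn hn10
  have h1 : n ≤ Nat.nth P n := (Nat.nth_strictMono hinf).id_le n
  have h2 := hX (Nat.nth P n) (by omega)
  have h3 := ratio_mono hn10 h1
  have h4 : ∑ m ∈ Finset.range (Nat.nth P n), (Set.ofPred P).indicator (fun n => e n) m =
      ((∑ i ∈ Finset.range n, Nceb06bb4.signWeight (Nat.nth P i) : ℤ) : ℝ) := by
    rw [nth_sum hinf Nceb06bb4.signWeight n, Finset.sum_filter]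
    push_cast
    refine Finset.sum_congr rfl (fun m _ => ?_)
    by_cases h : P m
    · rw [if_pos h, Set.indicator_of_mem (show m ∈ Set.ofPred P from h)]
      rfl
    · rw [if_neg h, Set.indicator_of_notMem (show m ∉ Set.ofPred P from h)]
  rw [← h4]
  linarith

end Pool.Agent.OGM31
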