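import Mathlib
import Pool.Agent.OGM31.Final

set_option autoImplicit false

open Filter Topology MeasureTheory ProbabilityTheory

namespace Pool.Agent.OGM31

/-- Signed counts of independent events with bounded mean oscillate. -/
theorem osc {Ω : Type*} [MeasurableSpace Ω] {μ : Measure Ω} [IsProbabilityMeasure μ]
    {A : ℕ → Set Ω} (hA : ∀ n, MeasurableSet (A n)) (hind : iIndepSet A μ) (f : ℕ → ℝ)
    (hf : ∀ n, |f n| = 1) (hdiv : ∑' n, μ (A n) = ⊤)
    (hsmall : ∀ᶠ n : ℕ in atTop, μ.real (A n) ≤ 1 / 2)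
    (B : ℝ) (hB : ∀ x : ℕ, |∑ n ∈ Finset.range x, f n * μ.real (A n)| ≤ B) :
    ∀ᵐ ω ∂μ, ∀ K : ℝ,
      (∃ x : ℕ, K < ∑ n ∈ Finset.range x, (A n).indicator (fun _ => f n) ω) ∧
      (∃ x : ℕ, ∑ n ∈ Finset.range x, (A n).indicator (fun _ => f n) ω < K) := by
  set 𝒢 := filtrationOfSet hA with h𝒢
  set Y : ℕ → Ω → ℝ := fun k ω => (A k).indicator (fun _ => f k) ω - f k * μ.real (A k) with hY
  set M : ℕ → Ω → ℝ := fun n ω => ∑ k ∈ Finset.range (n + 1), Y k ω with hM
  have hYint : ∀ k, Integrable (Y k) μ := by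
    intro k
    exact ((integrable_const (f k)).indicator (hA k)).sub (integrable_const _)
  have hYmeas : ∀ k n, k ≤ n → StronglyMeasurable[𝒢 n] (Y k) := by
    intro k n hkn
    refine StronglyMeasurable.sub ?_ stronglyMeasurable_const
    exact stronglyMeasurable_const.indicator (measurableSet_filtrationOfSet hA n hkn)
  have hadp : StronglyAdapted 𝒢 M := by
    intro n
    simp only [hM]
    refine Finset.stronglyMeasurable_fun_sum _ (fun k hk => ?_)
    exact hYmeas k n (by rw [Finset.mem_range] at hk; omega)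
  have hMint : ∀ n, Integrable (M n) μ := by
    intro n
    simp only [hM]
    exact integrable_finsetSum _ (fun k _ => hYint k)
  have hcond : ∀ n, μ[Y (n + 1) | 𝒢 n] =ᵐ[μ] 0 := by
    intro n
    have h1 := hind.condExp_indicator_filtrationOfSet_ae_eq hA (Nat.lt_succ_self n)
    have h2 : Y (n + 1) = f (n + 1) • (A (n + 1)).indicator (fun _ => (1 : ℝ)) -
        fun _ => f (n + 1) * μ.real (A (n + 1)) := by
      funext ω
      simp only [hY, Pi.sub_apply, Pi.smul_apply, smul_eq_mul]
      by_cases h : ω ∈ A (n + 1)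
      · rw [Set.indicator_of_mem h, Set.indicator_of_mem h, mul_one]
      · rw [Set.indicator_of_notMem h, Set.indicator_of_notMem h, mul_zero]
    have h3 : Integrable ((A (n + 1)).indicator (fun _ => (1 : ℝ))) μ :=
      (integrable_const _).indicator (hA _)
    rw [h2]
    have h4 := condExp_sub (m := 𝒢 n) (h3.smul (f (n + 1)))
      (integrable_const (μ := μ) (f (n + 1) * μ.real (A (n + 1))))
    have h5 := condExp_smul (μ := μ) (f (n + 1)) ((A (n + 1)).indicator (fun _ => (1 : ℝ))) (𝒢 n)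
    have h6 : μ[fun _ : Ω => f (n + 1) * μ.real (A (n + 1)) | 𝒢 n] =
        fun _ => f (n + 1) * μ.real (A (n + 1)) := condExp_const (𝒢.le n) _
    filter_upwards [h1, h4, h5] with ω a1 a4 a5
    rw [a4, Pi.sub_apply, a5, h6, Pi.smul_apply, a1, smul_eq_mul]
    simp
  have hmart : Martingale M 𝒢 μ := by
    refine martingale_nat hadp hMint (fun n => ?_)
    have h1 : M (n + 1) = M n + Y (n + 1) := by
      funext ω
      simp only [hM, Pi.add_apply]
      rw [Finset.sum_range_succ _ (n + 1)]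
    rw [h1]
    have h2 := condExp_add (m := 𝒢 n) (hMint n) (hYint (n + 1))
    have h3 : μ[M n | 𝒢 n] = M n := condExp_of_stronglyMeasurable (𝒢.le n) (hadp n) (hMint n)
    filter_upwards [h2, hcond n] with ω a2 a3
    rw [a2, Pi.add_apply, h3, a3]
    simp
  have hYb : ∀ k ω, |Y k ω| ≤ 2 := by
    intro k ω
    have h1 : |(A k).indicator (fun _ => f k) ω| ≤ 1 := by
      by_cases h : ω ∈ A k
      · rw [Set.indicator_of_mem h]; exact (hf k).le
      · rw [Set.indicator_of_notMem h]; norm_num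
    have h2 : |f k * μ.real (A k)| ≤ 1 := by
      rw [abs_mul, hf k, one_mul, abs_of_nonneg measureReal_nonneg]
      exact measureReal_le_one
    refine (abs_sub _ _).trans ?_
    linarith
  have hbdd : ∀ᵐ ω ∂μ, ∀ i, |M (i + 1) ω - M i ω| ≤ ((2 : NNReal) : ℝ) := by
    refine Eventually.of_forall (fun ω i => ?_)
    have h1 : M (i + 1) ω - M i ω = Y (i + 1) ω := by
      simp only [hM]
      rw [Finset.sum_range_succ _ (i + 1)]
      ring
    rw [h1]
    exact_mod_cast hYb (i + 1) ω
  have h1 := hmart.bddAbove_range_iff_bddBelow_range hbdd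
  have h2 := hmart.submartingale.bddAbove_iff_exists_tendsto hbdd
  have h3 : ∀ᵐ ω ∂μ, ∃ᶠ n : ℕ in atTop, ω ∈ A n := by
    have h4 := measure_limsup_eq_one hA hind hdiv
    have h5 : ∀ᵐ ω ∂μ, ω ∈ limsup A atTop := by
      rw [← prob_compl_eq_zero_iff₀ ?_] at h4
      · exact h4
      · exact (MeasurableSet.measurableSet_limsup hA).nullMeasurableSet
    filter_upwards [h5] with ω hω
    rwa [Filter.mem_limsup_iff_frequently_mem] at hω
  filter_upwards [h1, h2, h3] with ω a1 a2 a3
  have hnot : ¬ BddAbove (Set.range fun n => M n ω) := by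
    rw [a2]
    rintro ⟨c, hc⟩
    have h4 : Tendsto (fun n => M (n + 1) ω - M n ω) atTop (𝓝 (c - c)) :=
      (hc.comp (tendsto_add_atTop_nat 1)).sub hc
    rw [sub_self] at h4
    have h5 : ∀ᶠ n : ℕ in atTop, |Y (n + 1) ω| < 1 / 2 := by
      have h6 := (h4.abs).eventually (gt_mem_nhds (by norm_num : |(0 : ℝ)| < 1 / 2))
      filter_upwards [h6] with n hn
      have h7 : M (n + 1) ω - M n ω = Y (n + 1) ω := by
        simp only [hM]
        rw [Finset.sum_range_succ _ (n + 1)]
        ring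
      rwa [h7] at hn
    have h6 : ∀ᶠ n : ℕ in atTop, |Y n ω| < 1 / 2 := by
      obtain ⟨N, hN⟩ := eventually_atTop.mp h5
      refine eventually_atTop.mpr ⟨N + 1, fun n hn => ?_⟩
      have := hN (n - 1) (by omega)
      rwa [Nat.sub_add_cancel (by omega)] at this
    obtain ⟨n, hn1, hn2, hn3⟩ := (a3.and_eventually (h6.and hsmall)).exists
    have h8 : Y n ω = f n * (1 - μ.real (A n)) := by
      simp only [hY]
      rw [Set.indicator_of_mem hn1]
      ring
    rw [h8, abs_mul, hf n, one_mul] at hn2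
    have h9 := le_abs_self (1 - μ.real (A n))
    linarith
  have hnot2 : ¬ BddBelow (Set.range fun n => M n ω) := fun h => hnot (a1.mpr h)
  have hsum : ∀ n, M n ω = ∑ k ∈ Finset.range (n + 1), (A k).indicator (fun _ => f k) ω -
      ∑ k ∈ Finset.range (n + 1), f k * μ.real (A k) := by
    intro n
    simp only [hM, hY]
    rw [Finset.sum_sub_distrib]
  intro K
  constructor
  · rw [not_bddAbove_iff] at hnot
    obtain ⟨_, ⟨n, rfl⟩, hn⟩ := hnot (K + B)
    refine ⟨n + 1, ?_⟩
    simp only at hn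
    rw [hsum] at hn
    have := abs_le.mp (hB (n + 1))
    linarith [this.1]
  · rw [not_bddBelow_iff] at hnot2
    obtain ⟨_, ⟨n, rfl⟩, hn⟩ := hnot2 (K - B)
    refine ⟨n + 1, ?_⟩
    simp only at hn
    rw [hsum] at hn
    have := abs_le.mp (hB (n + 1))
    linarith [this.2]

end Pool.Agent.OGM31
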