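import Mathlib
import Pool.Agent.OGM31.Osc

set_option autoImplicit false

open Filter Topology MeasureTheory ProbabilityTheory

namespace Pool.Agent.OGM31

open Pool.Agent.Odious24

lemma e_two_mul (m : ℕ) : e (2 * m) = e m := by
  unfold e Nceb06bb4.signWeight
  rcases Nat.eq_zero_or_pos m with rfl | hm
  · simp
  · rw [Nat.digits_of_two_le_of_pos (by norm_num) (by omega)]
    simp

lemma e_two_mul_add_one (m : ℕ) : e (2 * m + 1) = -e m := by
  unfold e Nceb06bb4.signWeight
  rw [Nat.digits_of_two_le_of_pos (by norm_num) (by omega)]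
  have h1 : (2 * m + 1) % 2 = 1 := by omega
  have h2 : (2 * m + 1) / 2 = m := by omega
  rw [h1, h2, List.sum_cons]
  by_cases h : (Nat.digits 2 m).sum % 2 = 1
  · rw [if_pos h, if_neg (by omega)]
    norm_num
  · rw [if_neg h, if_pos (by omega)]
    norm_num

lemma sum_e_even (m : ℕ) : ∑ n ∈ Finset.range (2 * m), e n = 0 := by
  induction m with
  | zero => simp
  | succ m ih =>
    have : 2 * (m + 1) = 2 * m + 1 + 1 := by ring
    rw [this, Finset.sum_range_succ, Finset.sum_range_succ, ih, e_two_mul, e_two_mul_add_one]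
    ring

lemma abs_sum_e (x : ℕ) : |∑ n ∈ Finset.range x, e n| ≤ 1 := by
  rcases Nat.even_or_odd' x with ⟨m, rfl | rfl⟩
  · rw [sum_e_even]; norm_num
  · rw [Finset.sum_range_succ, sum_e_even, zero_add, abs_e]

lemma sift_small {z : ℕ} (hz : z < 2) (n : ℕ) : Sift z n := by
  intro p hp hpz
  have := hp.two_le
  omega

lemma sift_two (n : ℕ) : Sift 2 n ↔ ¬ 2 ∣ n := by
  constructor
  · intro h
    exact h 2 Nat.prime_two le_rfl
  · intro h p hp hp2
    have := hp.two_le
    have h3 : p = 2 := by omega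
    rw [h3]
    exact h

lemma sum_sw_two (m : ℕ) : ∑ n ∈ Finset.range (2 * m), sw 2 n = -∑ n ∈ Finset.range m, e n := by
  classical
  induction m with
  | zero => simp
  | succ m ih =>
    have : 2 * (m + 1) = 2 * m + 1 + 1 := by ring
    rw [this, Finset.sum_range_succ, Finset.sum_range_succ, ih, Finset.sum_range_succ]
    have h1 : sw 2 (2 * m) = 0 := by
      unfold sw
      rw [if_neg]
      rw [sift_two]
      simp
    have h2 : sw 2 (2 * m + 1) = -e m := by
      unfold sw
      rw [if_pos, e_two_mul_add_one]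
      rw [sift_two]
      omega
    rw [h1, h2]
    ring

lemma abs_sum_sw {z : ℕ} (hz : z ≤ 2) (x : ℕ) : |∑ n ∈ Finset.range x, sw z n| ≤ 1 := by
  classical
  rcases Nat.lt_or_ge z 2 with h | h
  · have h1 : ∀ n, sw z n = e n := by
      intro n
      unfold sw
      rw [if_pos (sift_small h n)]
    simp only [h1]
    exact abs_sum_e x
  · have h2 : z = 2 := by omega
    subst h2
    rcases Nat.even_or_odd' x with ⟨m, rfl | rfl⟩
    · rw [sum_sw_two, abs_neg]
      exact abs_sum_e m
    · rw [Finset.sum_range_succ, sum_sw_two]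
      have h1 : sw 2 (2 * m) = 0 := by
        unfold sw
        rw [if_neg]
        rw [sift_two]
        simp
      rw [h1, add_zero, abs_neg]
      exact abs_sum_e m

lemma abs_ico_sw {z : ℕ} (hz : z ≤ 2) {a b : ℕ} (hab : a ≤ b) :
    |∑ n ∈ Finset.Ico a b, sw z n| ≤ 2 := by
  rw [Finset.sum_Ico_eq_sub _ hab]
  have h1 := abs_sum_sw hz a
  have h2 := abs_sum_sw hz b
  exact (abs_sub _ _).trans (by linarith)

lemma abs_ico_gg {z : ℕ} (hz : z ≤ 2) {a b : ℕ} (ha : 3 ≤ a) (hab : a ≤ b) :
    |∑ n ∈ Finset.Ico a b, sw z n * gg n| ≤ 2 := by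
  rw [abel a b hab]
  have h1 : |(∑ m ∈ Finset.Ico a b, sw z m) * gg b| ≤ 2 * gg b := by
    rw [abs_mul, abs_of_nonneg (gg_nonneg b)]
    exact mul_le_mul_of_nonneg_right (abs_ico_sw hz hab) (gg_nonneg b)
  have h2 : |∑ n ∈ Finset.Ico a b, (∑ m ∈ Finset.Ico a (n + 1), sw z m) * (gg n - gg (n + 1))| ≤
      2 * (gg a - gg b) := by
    rw [← tele a b hab gg, Finset.mul_sum]
    refine (Finset.abs_sum_le_sum_abs _ _).trans (Finset.sum_le_sum (fun n hn => ?_))
    rw [Finset.mem_Ico] at hn
    have h3 : 0 ≤ gg n - gg (n + 1) := sub_nonneg.mpr (gg_anti (by omega) (by omega))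
    rw [abs_mul, abs_of_nonneg h3]
    exact mul_le_mul_of_nonneg_right (abs_ico_sw hz (by omega)) h3
  have h4 := gg_le_one ha
  calc _ ≤ 2 * gg b + 2 * (gg a - gg b) := (abs_add_le _ _).trans (add_le_add h1 h2)
    _ = 2 * gg a := by ring
    _ ≤ 2 := by linarith

lemma nth_count_sum {P : ℕ → Prop} [DecidablePred P] (hP : (Set.ofPred P).Infinite) (f : ℕ → ℤ)
    (x : ℕ) :
    ∑ m ∈ (Finset.range x).filter P, f m = ∑ i ∈ Finset.range (Nat.count P x), f (Nat.nth P i) := by
  rw [nth_sum hP f]
  refine Finset.sum_congr ?_ (fun _ _ => rfl)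
  ext m
  simp only [Finset.mem_filter, Finset.mem_range, and_congr_left_iff]
  intro hm
  have h1 : Nat.nth P (Nat.count P m) = m := Nat.nth_count hm
  constructor
  · intro h
    have h2 : Nat.count P m < Nat.count P x := Nat.count_strict_mono hm h
    rw [← h1]
    exact Nat.nth_strictMono hP h2
  · intro h
    by_contra h2
    have h3 : Nat.count P x ≤ Nat.count P m := Nat.count_monotone P (by omega)
    have h4 := (Nat.nth_strictMono hP).monotone h3
    omega

variable {Ω : Type*} [MeasurableSpace Ω]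

theorem contrast (μ : Measure Ω) [IsProbabilityMeasure μ]
    (A : ℕ → Set Ω) (hA : ∀ n, MeasurableSet (A n)) (hind : iIndepSet A μ)
    (z : ℕ) (hz : z ≤ 2)
    (h1 : ∀ᶠ n : ℕ in atTop, Sift z n → μ.real (A n) = 1 / (WW z * Real.log n))
    (h0 : ∀ᶠ n : ℕ in atTop, ¬ Sift z n → μ.real (A n) = 0) :
    ∀ᵐ ω ∂μ, ∀ K : ℝ,
      (∃ x : ℕ, K < ∑ n ∈ Finset.range x, (A n).indicator (fun _ => e n) ω) ∧
      (∃ x : ℕ, ∑ n ∈ Finset.range x, (A n).indicator (fun _ => e n) ω < K) := by
  classical
  have hW0 : 1 / 2 ≤ WW z := by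
    interval_cases z
    · unfold WW
      have : (Finset.range (0 + 1)).filter Nat.Prime = ∅ := by decide
      rw [this]; norm_num
    · have := WW_ge 1 le_rfl
      push_cast at this
      linarith
    · have := WW_ge 2 (by norm_num)
      push_cast at this
      linarith
  have hW1 : WW z ≤ 1 := by
    unfold WW
    refine Finset.prod_le_one (fun p hp => ?_) (fun p hp => ?_)
    · have h2 := (Finset.mem_filter.mp hp).2.one_le
      have h3 : (1 : ℝ) ≤ p := by exact_mod_cast h2
      rw [sub_nonneg, div_le_one (by linarith)]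
      exact h3
    · have : (0 : ℝ) ≤ 1 / p := by positivity
      linarith
  have hWpos : 0 < WW z := by linarith
  obtain ⟨N0, hN0⟩ := eventually_atTop.mp (h1.and h0)
  set N := max N0 3 with hN
  have hq : ∀ n, N ≤ n → e n * μ.real (A n) = (1 / WW z) * (sw z n * gg n) := by
    intro n hn
    have h2 := hN0 n (le_trans (le_max_left _ _) hn)
    by_cases h : Sift z n
    · have h3 : sw z n = e n := by unfold sw; rw [if_pos h]
      have h4 : (1 : ℝ) / (WW z * Real.log n) = (1 / WW z) * (1 / Real.log n) := by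
        rw [one_div_mul_one_div]
      rw [h2.1 h, h3, h4]
      unfold gg
      ring
    · have h3 : sw z n = 0 := by unfold sw; rw [if_neg h]
      rw [h2.2 h, h3]
      ring
  refine osc hA hind e abs_e ?_ ?_ (∑ n ∈ Finset.range N, |e n * μ.real (A n)| + 4) ?_
  · -- divergence
    by_contra hfin
    have hs : Summable (fun n => μ.real (A n)) := ENNReal.summable_toReal hfin
    have hs2 : Summable (fun k : ℕ => μ.real (A (2 * k + 1))) :=
      hs.comp_injective (fun a b h => by simpa using h)
    have hlow : ∀ᶠ k : ℕ in atTop, 1 / 3 * (1 / (k : ℝ)) ≤ μ.real (A (2 * k + 1)) := by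
      filter_upwards [eventually_ge_atTop N, eventually_ge_atTop 1] with k hk hk1
      have hk3 : 3 ≤ 2 * k + 1 := by
        have := le_max_right N0 3
        omega
      have h2 := hN0 (2 * k + 1) (by
        have := le_max_left N0 3
        omega)
      have h3 : Sift z (2 * k + 1) := by
        intro p hp hpz hdiv
        have h4 := hp.two_le
        have h5 : p = 2 := by omega
        subst h5
        omega
      rw [h2.1 h3]
      have hk0 : (0 : ℝ) < k := by exact_mod_cast hk1
      have hx3 : (3 : ℝ) ≤ ((2 * k + 1 : ℕ) : ℝ) := by exact_mod_cast hk3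
      have hlog : Real.log ((2 * k + 1 : ℕ) : ℝ) ≤ 3 * k := by
        have h6 := Real.log_le_sub_one_of_pos (show (0 : ℝ) < ((2 * k + 1 : ℕ) : ℝ) by positivity)
        push_cast at h6 ⊢
        linarith
      have hlog0 : 0 < Real.log ((2 * k + 1 : ℕ) : ℝ) := Real.log_pos (by linarith)
      have e1 : 1 / 3 * (1 / (k : ℝ)) = 1 / (3 * k) := by field_simp
      rw [e1]
      refine one_div_le_one_div_of_le (by positivity) ?_
      calc WW z * Real.log ((2 * k + 1 : ℕ) : ℝ) ≤ 1 * Real.log ((2 * k + 1 : ℕ) : ℝ) :=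
            mul_le_mul_of_nonneg_right hW1 hlog0.le
        _ ≤ 3 * k := by linarith
    have hs3 : Summable (fun k : ℕ => 1 / 3 * (1 / (k : ℝ))) := by
      obtain ⟨k0, hk0⟩ := eventually_atTop.mp hlow
      refine (summable_nat_add_iff k0).mp ?_
      refine Summable.of_nonneg_of_le (fun k => by positivity) (fun k => hk0 (k + k0) (by omega)) ?_
      exact (summable_nat_add_iff k0).mpr hs2
    have hs4 : Summable (fun k : ℕ => 1 / (k : ℝ)) := by
      have := hs3.mul_left 3
      refine this.congr (fun k => ?_)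
      ring
    exact Real.not_summable_one_div_natCast hs4
  · filter_upwards [eventually_ge_atTop N, log_top.eventually_ge_atTop 4] with n hn hl
    have h2 := hN0 n (le_trans (le_max_left _ _) hn)
    by_cases h : Sift z n
    · rw [h2.1 h]
      refine one_div_le_one_div_of_le (by norm_num) ?_
      nlinarith
    · rw [h2.2 h]; norm_num
  · intro x
    rcases le_total x N with hx | hx
    · have h2 : |∑ n ∈ Finset.range x, e n * μ.real (A n)| ≤
          ∑ n ∈ Finset.range N, |e n * μ.real (A n)| :=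
        (Finset.abs_sum_le_sum_abs _ _).trans (Finset.sum_le_sum_of_subset_of_nonneg
          (Finset.range_mono hx) (fun _ _ _ => abs_nonneg _))
      linarith
    · have h2 : ∑ n ∈ Finset.range x, e n * μ.real (A n) =
          ∑ n ∈ Finset.range N, e n * μ.real (A n) +
            (1 / WW z) * ∑ n ∈ Finset.Ico N x, sw z n * gg n := by
        rw [Finset.mul_sum, ← Finset.sum_range_add_sum_Ico _ hx]
        congr 1
        refine Finset.sum_congr rfl (fun n hn => ?_)
        rw [Finset.mem_Ico] at hn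
        exact hq n hn.1
      rw [h2]
      refine (abs_add_le _ _).trans (add_le_add (Finset.abs_sum_le_sum_abs _ _) ?_)
      rw [abs_mul, abs_of_pos (by positivity : 0 < 1 / WW z)]
      have h3 := abs_ico_gg hz (le_max_right N0 3) hx
      have h4 : 1 / WW z ≤ 2 := by
        rw [div_le_iff₀ hWpos]
        linarith
      have h5 : 0 ≤ |∑ n ∈ Finset.Ico N x, sw z n * gg n| := abs_nonneg _
      nlinarith

/-- The index form of the oscillation. -/
lemma index_osc {P : ℕ → Prop} (hS : ∀ K : ℝ,
      (∃ x : ℕ, K < ∑ n ∈ Finset.range x, (Set.ofPred P).indicator (fun n => e n) n) ∧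
      (∃ x : ℕ, ∑ n ∈ Finset.range x, (Set.ofPred P).indicator (fun n => e n) n < K)) :
    ∀ K : ℤ, (∃ n : ℕ, K < ∑ i ∈ Finset.range n, Nceb06bb4.signWeight (Nat.nth P i)) ∧
      (∃ n : ℕ, ∑ i ∈ Finset.range n, Nceb06bb4.signWeight (Nat.nth P i) < K) := by
  classical
  have hinf : (Set.ofPred P).Infinite := by
    intro hfin
    obtain ⟨B, hB⟩ := hfin.bddAbove
    obtain ⟨x, hx⟩ := (hS (B + 1 : ℕ)).1
    have h1 : ∑ n ∈ Finset.range x, (Set.ofPred P).indicator (fun n => e n) n ≤ (B + 1 : ℕ) := by
      calc ∑ n ∈ Finset.range x, (Set.ofPred P).indicator (fun n => e n) n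
          ≤ ∑ n ∈ Finset.range x, (if n ∈ Finset.range (B + 1) then (1 : ℝ) else 0) := by
            refine Finset.sum_le_sum (fun n _ => ?_)
            by_cases h : n ∈ Set.ofPred P
            · rw [Set.indicator_of_mem h, if_pos (Finset.mem_range.mpr (by
                have := hB h
                omega))]
              exact (le_abs_self _).trans (abs_e n).le
            · rw [Set.indicator_of_notMem h]
              split_ifs <;> norm_num
        _ = ∑ n ∈ (Finset.range x).filter (fun n => n ∈ Finset.range (B + 1)), (1 : ℝ) := by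
            rw [Finset.sum_filter]
        _ ≤ ∑ n ∈ Finset.range (B + 1), (1 : ℝ) := by
            refine Finset.sum_le_sum_of_subset_of_nonneg ?_ (fun _ _ _ => zero_le_one)
            intro n hn
            exact (Finset.mem_filter.mp hn).2
        _ = ((B + 1 : ℕ) : ℝ) := by simp
    linarith
  have key : ∀ x : ℕ, ∑ n ∈ Finset.range x, (Set.ofPred P).indicator (fun n => e n) n =
      ((∑ i ∈ Finset.range (Nat.count P x), Nceb06bb4.signWeight (Nat.nth P i) : ℤ) : ℝ) := by
    intro x
    rw [← nth_count_sum hinf Nceb06bb4.signWeight x, Finset.sum_filter]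
    push_cast
    refine Finset.sum_congr rfl (fun m _ => ?_)
    by_cases h : P m
    · rw [if_pos h, Set.indicator_of_mem (show m ∈ Set.ofPred P from h)]
      rfl
    · rw [if_neg h, Set.indicator_of_notMem (show m ∉ Set.ofPred P from h)]
  intro K
  obtain ⟨⟨x, hx⟩, ⟨y, hy⟩⟩ := hS (K : ℝ)
  rw [key] at hx hy
  exact ⟨⟨_, by exact_mod_cast hx⟩, ⟨_, by exact_mod_cast hy⟩⟩

end Pool.Agent.OGM31
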